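import Pool.Agent.Lib.H95F.FullComplex

/-!
MP_7f673e_co. If the full complex `X(G)` of a multigraph `G` embeds, or only almost embeds, in a
space `Z` (for example the 4-space), then `X(H)` almost embeds in `Z` for every graph `H` obtained
from `G` by Y-Delta transformations, deletions, contractions and doublings of edges.
-/

namespace Pool.Agent.Results.MP_7f673e_co.AlmostEmbeddings

open H95F

theorem result (α β Z : Type) [TopologicalSpace Z] (G H : Graph α β)
    (h : Relation.ReflTransGen Step G H) :
    (AlmostEmbeds G Z → AlmostEmbeds H Z) ∧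
    ((∃ f : FullMap G Z, f.IsInjective) → AlmostEmbeds H Z) := by
  refine ⟨almostEmbeds_of_steps h, ?_⟩
  rintro ⟨f, hf⟩
  exact almostEmbeds_of_steps h ⟨f, hf.isAlmostEmbedding⟩

end Pool.Agent.Results.MP_7f673e_co.AlmostEmbeddings
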