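import Pool.Agent.Lib.H95G.Equiv

/-!
MP_7f673e_co. Let `d ≥ 4`. If the full complex `X(G)` of a finite loopless multigraph `G` embeds, or
only almost embeds, in `R^d`, then `X(H)` almost embeds in `R^d` for every graph `H` obtained from
`G` by Y-Delta and Delta-Y transformations, additions of twins of vertices of degree three,
deletions, contractions and doublings of edges. In particular a Y-Delta transformation neither
destroys nor creates almost embeddability of the full complex in `R^d`.
-/

namespace Pool.Agent.Results.MP_7f673e_co.DeltaYClosure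

open H95F

theorem result (α β : Type) (d : ℕ) (hd : 4 ≤ d) (G H : Graph α β)
    (hV : G.vertexSet.Finite) (hE : G.edgeSet.Finite) (hloop : ∀ e x, ¬ G.IsLink e x x) :
    (Relation.ReflTransGen StepAll G H →
      (AlmostEmbeds G (EuclideanSpace ℝ (Fin d)) → AlmostEmbeds H (EuclideanSpace ℝ (Fin d))) ∧
      ((∃ f : FullMap G (EuclideanSpace ℝ (Fin d)), f.IsInjective) →
        AlmostEmbeds H (EuclideanSpace ℝ (Fin d)))) ∧
    (∀ v a b c ea eb ec, IsYDelta G H v a b c ea eb ec →
      (AlmostEmbeds G (EuclideanSpace ℝ (Fin d)) ↔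
        AlmostEmbeds H (EuclideanSpace ℝ (Fin d)))) := by
  have hd' : 3 < Module.finrank ℝ (EuclideanSpace ℝ (Fin d)) := by
    rw [finrank_euclideanSpace, Fintype.card_fin]
    omega
  refine ⟨fun h => ⟨almostEmbeds_of_stepsAll hd' h hV hE hloop, ?_⟩, ?_⟩
  · rintro ⟨f, hf⟩
    exact almostEmbeds_of_stepsAll hd' h hV hE hloop ⟨f, hf.isAlmostEmbedding⟩
  · intro v a b c ea eb ec h
    exact almostEmbeds_yDelta_iff hd' hV hE hloop h

end Pool.Agent.Results.MP_7f673e_co.DeltaYClosure
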